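import Pool.Agent.Helper7.SC.DP.Frames

/-!
Carries in cells (pieces NC and GC).
-/

set_option autoImplicit false

open Finset

namespace Pool.Agent.Helper81.SC.DP

open Pool.Agent.Helper7.SC.DP (blk zb Good)

/-- a sum of full blocks -/
theorem full_blocks (b q r : ℕ) (hb : 1 ≤ b) (N : ℕ) :
    ∑ B ∈ range N, (b ^ q - 1) * b ^ (r + B * q) + b ^ r = b ^ (r + N * q) := by
  induction N with
  | zero => simp
  | succ N ih =>
    rw [sum_range_succ, Nat.add_right_comm, ih]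
    have h1 : 1 ≤ b ^ q := Nat.one_le_pow _ _ hb
    have h2 : b ^ (r + (N + 1) * q) = b ^ q * b ^ (r + N * q) := by
      rw [← pow_add]
      congr 1
      ring
    rw [h2]
    calc b ^ (r + N * q) + (b ^ q - 1) * b ^ (r + N * q)
        = ((b ^ q - 1) + 1) * b ^ (r + N * q) := by ring
      _ = b ^ q * b ^ (r + N * q) := by rw [Nat.sub_add_cancel h1]

theorem low_lt {b q r m : ℕ} (hb : 1 ≤ b) (s : Finset (Fin m)) (τ : Fin m → Fin (b ^ q)) {N : ℕ}
    (hs : ∀ B ∈ s, (B : ℕ) < N) : ∑ B ∈ s, (τ B : ℕ) * b ^ (r + B * q) < b ^ (r + N * q) := by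
  have h1 : ∑ B ∈ s, (τ B : ℕ) * b ^ (r + B * q) ≤
      ∑ B ∈ range N, (b ^ q - 1) * b ^ (r + B * q) := by
    calc ∑ B ∈ s, (τ B : ℕ) * b ^ (r + B * q) ≤ ∑ B ∈ s, (b ^ q - 1) * b ^ (r + (B : ℕ) * q) :=
          sum_le_sum fun B _ => Nat.mul_le_mul_right _ (by have := (τ B).2; omega)
      _ = ∑ B ∈ s.image (fun B : Fin m => (B : ℕ)), (b ^ q - 1) * b ^ (r + B * q) := by
          rw [sum_image fun x _ y _ h => Fin.ext h]
      _ ≤ ∑ B ∈ range N, (b ^ q - 1) * b ^ (r + B * q) := by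
          refine sum_le_sum_of_subset fun x hx => ?_
          rw [mem_image] at hx
          obtain ⟨B, hB, rfl⟩ := hx
          exact mem_range.2 (hs B hB)
  have h2 := full_blocks b q r hb N
  have h3 : 0 < b ^ r := Nat.pow_pos hb
  omega

theorem high_dvd {b q r m : ℕ} (s : Finset (Fin m)) (τ : Fin m → Fin (b ^ q)) {e : ℕ}
    (hs : ∀ B ∈ s, e ≤ r + (B : ℕ) * q) : b ^ e ∣ ∑ B ∈ s, (τ B : ℕ) * b ^ (r + B * q) :=
  dvd_sum fun B hB => Dvd.dvd.mul_left (pow_dvd_pow b (hs B hB)) _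

/-- (NC) no carries in a good cell -/
theorem stNC : Pool.Agent.Helper7.SC.DP.StNC := by
  intro b q r m hb hq β k hg τ j hj
  classical
  have hb0 : 0 < b := by omega
  -- the two parts of the shift
  set lo := β.filter fun B : Fin m => r + ((B : ℕ) + 2) * q ≤ j with hlo
  set hi := β.filter fun B : Fin m => ¬ (r + ((B : ℕ) + 2) * q ≤ j) with hhi
  have hsplit : zb b q r β τ = ∑ B ∈ lo, (τ B : ℕ) * b ^ (r + B * q) +
      ∑ B ∈ hi, (τ B : ℕ) * b ^ (r + B * q) :=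
    (sum_filter_add_sum_filter_not β _ _).symm
  have hhi' : b ^ (j + 1) ∣ ∑ B ∈ hi, (τ B : ℕ) * b ^ (r + B * q) := by
    refine high_dvd hi τ fun B hB => ?_
    rw [mem_filter] at hB
    rcases hj B hB.1 with h | h
    · omega
    · exact absurd h hB.2
  obtain ⟨c, hc⟩ := hhi'
  set zl := ∑ B ∈ lo, (τ B : ℕ) * b ^ (r + B * q) with hzl
  have h1 : (k + zb b q r β τ) / b ^ j % b = (k + zl) / b ^ j % b := by
    rw [hsplit, hc, ← Nat.add_assoc]
    have : b ^ (j + 1) * c = (b * c) * b ^ j := by rw [pow_succ]; ring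
    rw [this, Nat.add_mul_div_right _ _ (Nat.pow_pos hb0), Nat.add_mul_mod_self_left]
  rw [h1]
  rcases lo.eq_empty_or_nonempty with he | hne
  · rw [hzl, he, sum_empty, Nat.add_zero]
  obtain ⟨Bs, hBs, hmax⟩ := exists_max_image lo (fun B => (B : ℕ)) hne
  have hBs' := mem_filter.1 hBs
  obtain ⟨u, hu⟩ : ∃ u, u = r + ((Bs : ℕ) + 1) * q := ⟨_, rfl⟩
  have huj : u + q ≤ j := by
    have h2 : u + q = r + ((Bs : ℕ) + 2) * q := by rw [hu]; ring
    rw [h2]
    exact hBs'.2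
  have hzlt : zl < b ^ u := by
    rw [hu]
    exact low_lt hb0 lo τ fun B hB => Nat.lt_succ_of_le (hmax B hB)
  have hblk : blk b q r ((Bs : ℕ) + 1) k ≠ b ^ q - 1 := by
    rcases (hg Bs hBs'.1).2 with ⟨B', hB', hBB⟩ | h
    · exfalso
      rcases hj B' hB' with h2 | h2
      · rw [hBB, ← hu] at h2
        omega
      · have h3 : B' ∈ lo := mem_filter.2 ⟨hB', h2⟩
        have h4 := hmax B' h3
        omega
    · exact h
  have hblk' : k / b ^ u % b ^ q ≠ b ^ q - 1 := by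
    have : blk b q r ((Bs : ℕ) + 1) k = k / b ^ u % b ^ q := by
      unfold blk
      rw [hu]
    rwa [this] at hblk
  have hQ : 0 < b ^ q := Nat.pow_pos hb0
  have hU : 0 < b ^ u := Nat.pow_pos hb0
  have hkey : (k + zl) / b ^ (u + q) = k / b ^ (u + q) := by
    rw [pow_add, ← Nat.div_div_eq_div_mul, ← Nat.div_div_eq_div_mul]
    -- quotients by `b ^ u`
    have h2 : (k + zl) / b ^ u ≤ k / b ^ u + 1 := by
      have h3 : k + zl < (k / b ^ u + 2) * b ^ u := by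
        have h4 := Nat.lt_div_mul_add (a := k) hU
        have h5 : (k / b ^ u + 2) * b ^ u = k / b ^ u * b ^ u + b ^ u + b ^ u := by ring
        omega
      have := (Nat.div_lt_iff_lt_mul hU).2 h3
      omega
    have h3 : k / b ^ u ≤ (k + zl) / b ^ u := Nat.div_le_div_right (Nat.le_add_right _ _)
    have h4 := Nat.div_add_mod (k / b ^ u) (b ^ q)
    have h5 : k / b ^ u % b ^ q < b ^ q := Nat.mod_lt _ hQ
    refine le_antisymm ?_ (Nat.div_le_div_right h3)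
    have h6 : (k + zl) / b ^ u / b ^ q < k / b ^ u / b ^ q + 1 := by
      rw [Nat.div_lt_iff_lt_mul hQ]
      have h7 : (k / b ^ u / b ^ q + 1) * b ^ q = b ^ q * (k / b ^ u / b ^ q) + b ^ q := by ring
      rw [h7]
      omega
    omega
  obtain ⟨e, he⟩ : ∃ e, j = u + q + e := ⟨j - (u + q), by omega⟩
  rw [he, pow_add, ← Nat.div_div_eq_div_mul, ← Nat.div_div_eq_div_mul, hkey]

/-- (GC) clean numbers lie in good cells -/
theorem stGC : Pool.Agent.Helper7.SC.DP.StGC := by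
  intro b q r m hb hq β n hn τ
  classical
  have hb0 : 0 < b := by omega
  have hQ : 0 < b ^ q := Nat.pow_pos hb0
  have hle : zb b q r β τ ≤ n := by
    rcases β.eq_empty_or_nonempty with he | hne
    · unfold zb
      rw [he, sum_empty]
      exact Nat.zero_le _
    obtain ⟨Bs, hBs, hmax⟩ := exists_max_image β (fun B => (B : ℕ)) hne
    have h1 : zb b q r β τ < b ^ (r + ((Bs : ℕ) + 1) * q) :=
      low_lt hb0 β τ fun B hB => Nat.lt_succ_of_le (hmax B hB)
    have h2 := (hn Bs hBs).2.1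
    have h3 : b ^ (r + ((Bs : ℕ) + 1) * q) ≤ n := by
      by_contra hlt
      push Not at hlt
      apply h2
      unfold blk
      rw [Nat.div_eq_of_lt hlt, Nat.zero_mod]
    omega
  refine ⟨hle, fun B hB => ⟨(hn B hB).1, ?_⟩⟩
  by_cases hB1 : ∃ B' ∈ β, (B' : ℕ) = B + 1
  · exact Or.inl hB1
  right
  obtain ⟨u, hu⟩ : ∃ u, u = r + ((B : ℕ) + 1) * q := ⟨_, rfl⟩
  have hU : 0 < b ^ u := Nat.pow_pos hb0
  obtain ⟨_, h0, h1⟩ := hn B hB
  have e1 : ∀ x, blk b q r ((B : ℕ) + 1) x = x / b ^ u % b ^ q := by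
    intro x
    unfold blk
    rw [hu]
  rw [e1] at h0 h1 ⊢
  set lo := β.filter fun B' : Fin m => (B' : ℕ) ≤ B with hlo
  set hi := β.filter fun B' : Fin m => ¬ ((B' : ℕ) ≤ B) with hhi
  have hsplit : zb b q r β τ = ∑ B ∈ lo, (τ B : ℕ) * b ^ (r + B * q) +
      ∑ B ∈ hi, (τ B : ℕ) * b ^ (r + B * q) :=
    (sum_filter_add_sum_filter_not β _ _).symm
  have hhi' : b ^ (u + q) ∣ ∑ B ∈ hi, (τ B : ℕ) * b ^ (r + B * q) := by
    refine high_dvd hi τ fun B' hB' => ?_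
    rw [mem_filter] at hB'
    have h2 : (B' : ℕ) ≠ B + 1 := fun h => hB1 ⟨B', hB'.1, h⟩
    have h3 : (B : ℕ) + 2 ≤ B' := by omega
    have h4 : u + q = r + ((B : ℕ) + 2) * q := by rw [hu]; ring
    rw [h4]
    exact Nat.add_le_add_left (Nat.mul_le_mul_right _ h3) _
  obtain ⟨c, hc⟩ := hhi'
  set zl := ∑ B ∈ lo, (τ B : ℕ) * b ^ (r + B * q) with hzl
  have hzlt : zl < b ^ u := by
    rw [hu]
    exact low_lt hb0 lo τ fun B' hB' => Nat.lt_succ_of_le (mem_filter.1 hB').2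
  rw [hc] at hsplit
  -- the number without the high part
  obtain ⟨n', hn'⟩ : ∃ n', n = n' + b ^ (u + q) * c := ⟨n - b ^ (u + q) * c, by omega⟩
  have h2 : n - zb b q r β τ = n' - zl := by omega
  have h3 : zl ≤ n' := by omega
  rw [h2]
  have h4 : n / b ^ u = n' / b ^ u + b ^ q * c := by
    rw [hn', pow_add]
    have : b ^ u * b ^ q * c = (b ^ q * c) * b ^ u := by ring
    rw [this, Nat.add_mul_div_right _ _ hU]
  rw [h4, Nat.add_mul_mod_self_left] at h0 h1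
  set t := n' / b ^ u with ht
  have h5 : (n' - zl) / b ^ u ≤ t := Nat.div_le_div_right (Nat.sub_le _ _)
  have h6 : t ≤ (n' - zl) / b ^ u + 1 := by
    have h7 : n' < ((n' - zl) / b ^ u + 2) * b ^ u := by
      have h8 := Nat.lt_div_mul_add (a := n' - zl) hU
      have h9 : ((n' - zl) / b ^ u + 2) * b ^ u = (n' - zl) / b ^ u * b ^ u + b ^ u + b ^ u := by
        ring
      omega
    have := (Nat.div_lt_iff_lt_mul hU).2 h7
    omega
  have h7 : t % b ^ q < b ^ q := Nat.mod_lt _ hQ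
  obtain ⟨x, hx⟩ : ∃ x, x = (n' - zl) / b ^ u := ⟨_, rfl⟩
  rw [← hx] at h5 h6 ⊢
  rcases Nat.lt_or_ge x t with h8 | h8
  · have h9 : x = t - 1 := by omega
    rw [h9]
    have h10 := Nat.div_add_mod t (b ^ q)
    obtain ⟨d, hd⟩ : ∃ d, d = t % b ^ q := ⟨_, rfl⟩
    rw [← hd] at h10 h7 h0 h1
    have hd0 : 1 ≤ d := Nat.one_le_iff_ne_zero.2 h0
    have h11 : t - 1 = b ^ q * (t / b ^ q) + (d - 1) := by
      rw [← Nat.add_sub_assoc hd0, h10]
    rw [h11, Nat.mul_add_mod, Nat.mod_eq_of_lt (lt_of_le_of_lt (Nat.sub_le _ _) h7)]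
    obtain ⟨Q, hQQ⟩ : ∃ Q, Q = b ^ q := ⟨_, rfl⟩
    rw [← hQQ] at h7 h1 ⊢
    omega
  · have h9 : x = t := le_antisymm h5 h8
    rw [h9]
    exact h1

end Pool.Agent.Helper81.SC.DP
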